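import Pool.Agent.helper66.LIN.Spec

set_option autoImplicit false

/-!
# Row lin:LPD (project lin, MP_60c1a7_co): the small-first path on a decreasing chain
(adapted from helper24's PIN)
-/

namespace LSH.Lin

/-- edges between points of the quadrant (left, above) with corner `r` stay in the quadrant -/
theorem LPD_box (hOB : OB_stmt) (f : Edge) (r z : Pt) (ha : f.a.1 ≤ r.1 ∧ r.2 ≤ f.a.2)
    (hb : f.b.1 ≤ r.1 ∧ r.2 ≤ f.b.2) (hz : f.on z) : z.1 ≤ r.1 ∧ r.2 ≤ z.2 := by
  obtain ⟨h1, h2⟩ := hOB.1 f z hz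
  rw [Set.mem_uIcc] at h1 h2
  constructor
  · rcases h1 with h | h
    · exact h.2.trans hb.1
    · exact h.2.trans ha.1
  · rcases h2 with h | h
    · exact ha.2.trans h.1
    · exact hb.2.trans h.1

theorem LPD_step (hOB : OB_stmt) (hGTF : GTF_stmt) (C : Finset Pt) (hC : Gen (C : Set Pt))
    (x : Pt) (hx : x ∈ C) (hxC : ∀ p ∈ C.erase x, p.1 < x.1 ∧ x.2 < p.2) (s : BT) (G' : GT)
    (hG' : Pre s (C.erase x) G') (hr : ∀ p ∈ G'.pts, p.1 ≤ G'.root.1 ∧ G'.root.2 ≤ p.2)
    (t t' : BT) (G : GT) (h1 : G.shape = t') (h2 : G.root = x) (h3 : G.pts = x ::ₘ G'.pts)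
    (h4 : G.edges = ⟨x, G'.root, true⟩ :: G'.edges) (h5 : G.pend = (x, t) ::ₘ G'.pend) :
    Pre t' C G ∧ Below G ∧ ∀ p ∈ G.pts, p.1 ≤ G.root.1 ∧ G.root.2 ≤ p.2 := by
  obtain ⟨g1, g2, g3, -⟩ := hGTF
  have hrt : G'.root ∈ G'.pts := g1 G'
  have hxr : G'.root.1 < x.1 ∧ x.2 < G'.root.2 := hxC _ (hG'.pts _ hrt)
  have hptC : ∀ p ∈ G'.pts, p ∈ C := fun p hp => Finset.mem_of_mem_erase (hG'.pts p hp)
  have hbox : ∀ f ∈ G'.edges, ∀ z, f.on z → z.1 ≤ G'.root.1 ∧ G'.root.2 ≤ z.2 := by
    intro f hf z hz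
    obtain ⟨ha, hb⟩ := g2 G' f hf
    exact LPD_box hOB f _ z (hr _ ha) (hr _ hb) hz
  have hnew : ∀ z, (⟨x, G'.root, true⟩ : Edge).on z →
      (z.2 = x.2 ∧ z.1 ≤ x.1) ∨ (z.1 = G'.root.1 ∧ z.2 ≤ G'.root.2) := by
    intro z hz
    rcases hz with ⟨-, h | h⟩ | ⟨h, -⟩
    · left
      refine ⟨h.1, ?_⟩
      have := h.2
      rw [Set.mem_uIcc] at this
      rcases this with h' | h'
      · exact h'.2.trans hxr.1.le
      · exact h'.2
    · right
      refine ⟨h.1, ?_⟩
      have := h.2
      rw [Set.mem_uIcc] at this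
      rcases this with h' | h'
      · exact h'.2
      · exact h'.2.trans hxr.2.le
    · exact absurd h (by simp)
  refine ⟨⟨h1, ?_, ?_, ?_, ?_⟩, ?_, ?_⟩
  · intro p hp
    rw [h3, Multiset.mem_cons] at hp
    rcases hp with rfl | hp
    · exact hx
    · exact hptC p hp
  · rw [h3, Multiset.nodup_cons]
    refine ⟨fun h => ?_, hG'.nodup⟩
    exact (Finset.ne_of_mem_erase (hG'.pts x h)) rfl
  · rw [h4, List.pairwise_cons]
    refine ⟨?_, hG'.nc⟩
    intro f hf z hz1 hz2
    obtain ⟨b1, b2⟩ := hbox f hf z hz2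
    have hzr : z = G'.root := by
      rcases hnew z hz1 with h | h
      · exfalso
        linarith [h.1, hxr.2]
      · exact Prod.ext h.1 (le_antisymm h.2 b2)
    refine ⟨Or.inr hzr, ?_⟩
    obtain ⟨ha, hb⟩ := g2 G' f hf
    exact hOB.2.1 (C : Set Pt) f z hC (by exact_mod_cast hptC _ ha) (by exact_mod_cast hptC _ hb)
      (by rw [hzr]; exact_mod_cast hptC _ hrt) hz2
  · intro i hi e he z hz hzi
    rw [h5, Multiset.mem_cons] at hi
    rw [h4, List.mem_cons] at he
    rcases hi with rfl | hi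
    · simp only at hzi ⊢
      rcases he with rfl | he
      · rcases hnew z hz with h | h
        · exact h.2
        · exact h.1.le.trans hxr.1.le
      · exfalso
        have := (hbox e he z hz).2
        linarith [hxr.2]
    · rcases he with rfl | he
      · have hi' := g3 G' i hi
        rcases hnew z hz with h | h
        · exfalso
          have := (hr _ hi').2
          linarith [h.1, hxr.2]
        · have h6 : i.1.2 = G'.root.2 := by
            have := (hr _ hi').2
            linarith [h.2]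
          have h7 : i.1 = G'.root := by
            by_contra hne
            exact (hC _ (by exact_mod_cast hptC _ hi') _ (by exact_mod_cast hptC _ hrt) hne).2 h6
          rw [h7]
          exact h.1.le
      · exact hG'.ray i hi e he z hz hzi
  · intro e he z hz hz1 hz2
    rw [h2] at hz1 hz2 ⊢
    rw [h4, List.mem_cons] at he
    rcases he with rfl | he
    · rcases hnew z hz with h | h
      · exact Prod.ext hz1 h.1
      · exfalso
        linarith [h.1, hxr.1]
    · exfalso
      have := (hbox e he z hz).1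
      linarith [hxr.1]
  · intro p hp
    rw [h3, Multiset.mem_cons] at hp
    rw [h2]
    rcases hp with rfl | hp
    · exact ⟨le_rfl, le_rfl⟩
    · have := hr p hp
      exact ⟨this.1.trans hxr.1.le, hxr.2.le.trans this.2⟩

/-- rightmost point of a decreasing chain -/
theorem LPD_right (C : Finset Pt) (hC : Gen (C : Set Pt)) (hi : Dec C) (h : C.Nonempty) :
    ∃ x ∈ C, ∀ p ∈ C.erase x, p.1 < x.1 ∧ x.2 < p.2 := by
  obtain ⟨x, hx, hmax⟩ := Finset.exists_max_image C (fun p => p.1) h
  refine ⟨x, hx, ?_⟩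
  intro p hp
  have hpC := Finset.mem_of_mem_erase hp
  have hne := Finset.ne_of_mem_erase hp
  have h1 := (hC p (by exact_mod_cast hpC) x (by exact_mod_cast hx) hne).1
  have h2 : p.1 < x.1 := lt_of_le_of_ne (hmax p hpC) h1
  exact ⟨h2, hi p hpC x hx h2⟩

theorem LPD (hOB : OB_stmt) (hGTF : GTF_stmt) : LPD_stmt := by
  intro t
  induction t with
  | leaf =>
    intro C hC hi hc
    simp only [BT.pl] at hc
    obtain ⟨x, hx⟩ := Finset.card_pos.1 hc
    refine ⟨.leaf x, ⟨rfl, ?_, ?_, ?_, ?_⟩, ?_, ?_⟩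
    · intro p hp
      simp only [GT.pts, Multiset.mem_singleton] at hp
      rw [hp]; exact hx
    · exact Multiset.nodup_singleton x
    · exact List.Pairwise.nil
    · intro i hi'
      simp [GT.pend] at hi'
    · intro e he
      simp [GT.edges] at he
    · intro p hp
      simp only [GT.pts, Multiset.mem_singleton] at hp
      rw [hp]; exact ⟨le_rfl, le_rfl⟩
  | un t _ =>
    intro C hC hi hc
    simp only [BT.pl] at hc
    obtain ⟨x, hx⟩ := Finset.card_pos.1 hc
    refine ⟨.un x t, ⟨rfl, ?_, ?_, ?_, ?_⟩, ?_, ?_⟩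
    · intro p hp
      simp only [GT.pts, Multiset.mem_singleton] at hp
      rw [hp]; exact hx
    · exact Multiset.nodup_singleton x
    · exact List.Pairwise.nil
    · intro i hi' e he
      simp [GT.edges] at he
    · intro e he
      simp [GT.edges] at he
    · intro p hp
      simp only [GT.pts, Multiset.mem_singleton] at hp
      rw [hp]; exact ⟨le_rfl, le_rfl⟩
  | br s t ihs iht =>
    intro C hC hi hc
    have hne : C.Nonempty := by
      apply Finset.card_pos.1
      simp only [BT.pl] at hc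
      split_ifs at hc <;> omega
    obtain ⟨x, hx, hxC⟩ := LPD_right C hC hi hne
    have hC' : Gen ((C.erase x : Finset Pt) : Set Pt) := by
      intro a ha b hb
      exact hC a (by exact_mod_cast Finset.mem_of_mem_erase (by exact_mod_cast ha)) b
        (by exact_mod_cast Finset.mem_of_mem_erase (by exact_mod_cast hb))
    have hi' : Dec (C.erase x) := fun a ha b hb =>
      hi a (Finset.mem_of_mem_erase ha) b (Finset.mem_of_mem_erase hb)
    have hcard : (C.erase x).card = C.card - 1 := Finset.card_erase_of_mem hx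
    by_cases hst : s.lv ≤ t.lv
    · have hpl : s.pl ≤ (C.erase x).card := by
        simp only [BT.pl, hst, if_true] at hc
        omega
      obtain ⟨G', hG', _, hr⟩ := ihs (C.erase x) hC' hi' hpl
      exact ⟨.br x true G' t, LPD_step hOB hGTF C hC x hx hxC s G' hG' hr t (.br s t) _
        (by simp [GT.shape, hG'.shape]) rfl rfl rfl rfl⟩
    · have hpl : t.pl ≤ (C.erase x).card := by
        simp only [BT.pl, hst, if_false] at hc
        omega
      obtain ⟨G', hG', _, hr⟩ := iht (C.erase x) hC' hi' hpl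
      exact ⟨.bl x s true G', LPD_step hOB hGTF C hC x hx hxC t G' hG' hr s (.br s t) _
        (by simp [GT.shape, hG'.shape]) rfl rfl rfl rfl⟩

end LSH.Lin
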