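import Pool.Agent.helper66.LIN.Spec

set_option autoImplicit false

/-!
# Row lin:PLA (project lin, MP_60c1a7_co): inserting subtrees in a gadget
-/

namespace LSH.Lin

theorem PLA : PLA_stmt := by
  intro G D
  induction G with
  | leaf x =>
    intro _
    refine ⟨rfl, rfl, ?_, ?_⟩
    · simp [GT.plug, PT.pts, GT.pts, GT.pend]
    · intro e
      simp [GT.plug, PT.edges, GT.edges, GT.pend]
  | un x t =>
    intro h
    have h1 := h (x, t) (by simp [GT.pend])
    refine ⟨?_, rfl, ?_, ?_⟩
    · simp only [GT.plug, PT.shape, GT.shape, h1]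
    · simp [GT.plug, PT.pts, GT.pts, GT.pend]
    · intro e
      simp [GT.plug, PT.edges, GT.edges, GT.pend, att]
  | bl x s b g ih =>
    intro h
    have h1 := h (x, s) (by simp [GT.pend])
    obtain ⟨i1, i2, i3, i4⟩ := ih (fun i hi => h i (by simp [GT.pend, hi]))
    refine ⟨?_, rfl, ?_, ?_⟩
    · simp only [GT.plug, PT.shape, GT.shape, h1, i1]
    · simp only [GT.plug, PT.pts, GT.pts, GT.pend, i3, Multiset.map_cons, Multiset.sum_cons]
      simp only [Multiset.cons_add]
      rw [← add_assoc, add_comm (D x).pts g.pts, add_assoc]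
    · intro e
      simp only [GT.plug, PT.edges, GT.edges, GT.pend, List.mem_append, List.mem_cons,
        Multiset.mem_cons, i2, i4, att]
      constructor
      · rintro ((h2 | h2) | (h2 | h2 | ⟨i, hi, h2⟩))
        · exact Or.inr ⟨(x, s), Or.inl rfl, Or.inl h2⟩
        · exact Or.inr ⟨(x, s), Or.inl rfl, Or.inr h2⟩
        · exact Or.inl (Or.inl h2)
        · exact Or.inl (Or.inr h2)
        · exact Or.inr ⟨i, Or.inr hi, h2⟩
      · rintro ((h2 | h2) | ⟨i, rfl | hi, h2⟩)
        · exact Or.inr (Or.inl h2)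
        · exact Or.inr (Or.inr (Or.inl h2))
        · exact Or.inl h2
        · exact Or.inr (Or.inr (Or.inr ⟨i, hi, h2⟩))
  | br x b g t ih =>
    intro h
    have h1 := h (x, t) (by simp [GT.pend])
    obtain ⟨i1, i2, i3, i4⟩ := ih (fun i hi => h i (by simp [GT.pend, hi]))
    refine ⟨?_, rfl, ?_, ?_⟩
    · simp only [GT.plug, PT.shape, GT.shape, h1, i1]
    · simp only [GT.plug, PT.pts, GT.pts, GT.pend, i3, Multiset.map_cons, Multiset.sum_cons]
      simp only [Multiset.cons_add]
      rw [add_assoc, add_comm _ (D x).pts]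
    · intro e
      simp only [GT.plug, PT.edges, GT.edges, GT.pend, List.mem_append, List.mem_cons,
        Multiset.mem_cons, i2, i4, att]
      constructor
      · rintro ((h2 | h2 | ⟨i, hi, h2⟩) | (h2 | h2))
        · exact Or.inl (Or.inl h2)
        · exact Or.inl (Or.inr h2)
        · exact Or.inr ⟨i, Or.inr hi, h2⟩
        · exact Or.inr ⟨(x, t), Or.inl rfl, Or.inl h2⟩
        · exact Or.inr ⟨(x, t), Or.inl rfl, Or.inr h2⟩
      · rintro ((h2 | h2) | ⟨i, rfl | hi, h2⟩)
        · exact Or.inl (Or.inl h2)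
        · exact Or.inl (Or.inr (Or.inl h2))
        · exact Or.inr h2
        · exact Or.inl (Or.inr (Or.inr ⟨i, hi, h2⟩))
  | bb x b g c g' ih ih' =>
    intro h
    obtain ⟨i1, i2, i3, i4⟩ := ih (fun i hi => h i (by simp [GT.pend, hi]))
    obtain ⟨j1, j2, j3, j4⟩ := ih' (fun i hi => h i (by simp [GT.pend, hi]))
    refine ⟨?_, rfl, ?_, ?_⟩
    · simp only [GT.plug, PT.shape, GT.shape, i1, j1]
    · simp only [GT.plug, PT.pts, GT.pts, GT.pend, i3, j3, Multiset.map_add, Multiset.sum_add,
        Multiset.cons_add]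
      rw [add_add_add_comm]
    · intro e
      simp only [GT.plug, PT.edges, GT.edges, GT.pend, List.mem_append, List.mem_cons,
        Multiset.mem_add, i2, i4, j2, j4]
      constructor
      · rintro ((h2 | h2 | ⟨i, hi, h2⟩) | (h2 | h2 | ⟨i, hi, h2⟩))
        · exact Or.inl (Or.inl (Or.inl h2))
        · exact Or.inl (Or.inl (Or.inr h2))
        · exact Or.inr ⟨i, Or.inl hi, h2⟩
        · exact Or.inl (Or.inr (Or.inl h2))
        · exact Or.inl (Or.inr (Or.inr h2))
        · exact Or.inr ⟨i, Or.inr hi, h2⟩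
      · rintro (((h2 | h2) | (h2 | h2)) | ⟨i, hi | hi, h2⟩)
        · exact Or.inl (Or.inl h2)
        · exact Or.inl (Or.inr (Or.inl h2))
        · exact Or.inr (Or.inl h2)
        · exact Or.inr (Or.inr (Or.inl h2))
        · exact Or.inl (Or.inr (Or.inr ⟨i, hi, h2⟩))
        · exact Or.inr (Or.inr (Or.inr ⟨i, hi, h2⟩))

end LSH.Lin
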