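import Pool.Agent.helper66.LIN.Spec

set_option autoImplicit false

/-!
# Row lin:PLB (project lin, MP_60c1a7_co): planarity of a gadget with inserted subtrees
-/

namespace LSH.Lin

theorem PLB_mem (hPLA : PLA_stmt) (G : GT) (D : Pt → PT) (u : Pt) (h : Bool)
    (hs : ∀ i ∈ G.pend, (D i.1).shape = i.2) (e : Edge) :
    e ∈ att u h (G.plug D) ↔ e ∈ attG u h G ∨ ∃ i ∈ G.pend, e ∈ att i.1 true (D i.1) := by
  obtain ⟨_, h2, _, h4⟩ := hPLA G D hs
  have h5 : att u h (G.plug D) = ⟨u, G.root, h⟩ :: (G.plug D).edges := by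
    simp only [att, h2]
  rw [h5, attG, List.mem_cons, List.mem_cons, h4]
  exact or_assoc.symm

/-- from the edges of `G.plug D` to the version with the edge from `u` -/
theorem PLB_top (hPLA : PLA_stmt) (G : GT) (D : Pt → PT) (u : Pt) (h : Bool)
    (hs : ∀ i ∈ G.pend, (D i.1).shape = i.2) (h1 : (attG u h G).Pairwise NC)
    (h2 : ∀ i ∈ G.pend, ∀ e ∈ attG u h G, ∀ f ∈ att i.1 true (D i.1), NC e f)
    (h3 : (G.plug D).edges.Pairwise NC) : (att u h (G.plug D)).Pairwise NC := by
  obtain ⟨_, q2, _, q4⟩ := hPLA G D hs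
  simp only [att, q2]
  simp only [attG, List.pairwise_cons] at h1 ⊢
  refine ⟨?_, h3⟩
  intro f hf
  rcases (q4 f).1 hf with hf | ⟨i, hi, hf⟩
  · exact h1.1 f hf
  · exact h2 i hi _ (by simp [attG]) f hf

theorem PLB_E (hOB : OB_stmt) (hPLA : PLA_stmt) (hGTF : GTF_stmt) (D : Pt → PT) (G : GT) :
    G.pts.Nodup → (∀ i ∈ G.pend, (D i.1).shape = i.2) → G.edges.Pairwise NC →
    (∀ i ∈ G.pend, (att i.1 true (D i.1)).Pairwise NC) →
    (∀ i ∈ G.pend, ∀ e ∈ G.edges, ∀ f ∈ att i.1 true (D i.1), NC e f) →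
    (∀ i ∈ G.pend, ∀ j ∈ G.pend, i.1 ≠ j.1 →
      ∀ e ∈ att i.1 true (D i.1), ∀ f ∈ att j.1 true (D j.1), NC e f) →
    (G.plug D).edges.Pairwise NC := by
  have hsym := hOB.2.2.2
  have hp := hGTF.2.2.1
  induction G with
  | leaf x =>
    intro _ _ _ _ _ _
    exact List.Pairwise.nil
  | un x t =>
    intro _ _ _ h4 _ _
    exact h4 (x, t) (by simp [GT.pend])
  | bl x s b g ih =>
    intro h1 h2 h3 h4 h5 h6
    simp only [GT.pts, Multiset.nodup_cons] at h1
    have hpe : ∀ i ∈ g.pend, i ∈ (GT.bl x s b g).pend := fun i hi => by simp [GT.pend, hi]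
    have hx : ((x, s) : Pt × BT) ∈ (GT.bl x s b g).pend := by simp [GT.pend]
    have hne : ∀ i ∈ g.pend, x ≠ i.1 := fun i hi he => h1.1 (by rw [he]; exact hp g i hi)
    have h3' : (attG x b g).Pairwise NC := h3
    have hg : (g.plug D).edges.Pairwise NC := by
      refine ih h1.2 (fun i hi => h2 i (hpe i hi)) ?_ (fun i hi => h4 i (hpe i hi)) ?_ ?_
      · exact (List.pairwise_cons.1 h3').2
      · intro i hi e he
        exact h5 i (hpe i hi) e (by simp [GT.edges, he])
      · intro i hi j hj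
        exact h6 i (hpe i hi) j (hpe j hj)
    have hB : (att x b (g.plug D)).Pairwise NC :=
      PLB_top hPLA g D x b (fun i hi => h2 i (hpe i hi)) h3'
        (fun i hi e he => h5 i (hpe i hi) e he) hg
    have key : (att x true (D x) ++ att x b (g.plug D)).Pairwise NC := by
      rw [List.pairwise_append]
      refine ⟨h4 (x, s) hx, hB, ?_⟩
      intro e he f hf
      rcases (PLB_mem hPLA g D x b (fun i hi => h2 i (hpe i hi)) f).1 hf with hf | ⟨i, hi, hf⟩
      · exact hsym _ _ (h5 (x, s) hx f hf e he)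
      · exact h6 (x, s) hx i (hpe i hi) (hne i hi) e he f hf
    exact key
  | br x b g t ih =>
    intro h1 h2 h3 h4 h5 h6
    simp only [GT.pts, Multiset.nodup_cons] at h1
    have hpe : ∀ i ∈ g.pend, i ∈ (GT.br x b g t).pend := fun i hi => by simp [GT.pend, hi]
    have hx : ((x, t) : Pt × BT) ∈ (GT.br x b g t).pend := by simp [GT.pend]
    have hne : ∀ i ∈ g.pend, x ≠ i.1 := fun i hi he => h1.1 (by rw [he]; exact hp g i hi)
    have h3' : (attG x b g).Pairwise NC := h3
    have hg : (g.plug D).edges.Pairwise NC := by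
      refine ih h1.2 (fun i hi => h2 i (hpe i hi)) ?_ (fun i hi => h4 i (hpe i hi)) ?_ ?_
      · exact (List.pairwise_cons.1 h3').2
      · intro i hi e he
        exact h5 i (hpe i hi) e (by simp [GT.edges, he])
      · intro i hi j hj
        exact h6 i (hpe i hi) j (hpe j hj)
    have hB : (att x b (g.plug D)).Pairwise NC :=
      PLB_top hPLA g D x b (fun i hi => h2 i (hpe i hi)) h3'
        (fun i hi e he => h5 i (hpe i hi) e he) hg
    have key : (att x b (g.plug D) ++ att x true (D x)).Pairwise NC := by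
      rw [List.pairwise_append]
      refine ⟨hB, h4 (x, t) hx, ?_⟩
      intro f hf e he
      rcases (PLB_mem hPLA g D x b (fun i hi => h2 i (hpe i hi)) f).1 hf with hf | ⟨i, hi, hf⟩
      · exact h5 (x, t) hx f hf e he
      · exact hsym _ _ (h6 (x, t) hx i (hpe i hi) (hne i hi) e he f hf)
    exact key
  | bb x b g c g' ih ih' =>
    intro h1 h2 h3 h4 h5 h6
    simp only [GT.pts, Multiset.nodup_cons, Multiset.nodup_add] at h1
    obtain ⟨h1x, h1g, h1g', hdis⟩ := h1
    have hpe : ∀ i ∈ g.pend, i ∈ (GT.bb x b g c g').pend := fun i hi => by simp [GT.pend, hi]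
    have hpe' : ∀ i ∈ g'.pend, i ∈ (GT.bb x b g c g').pend := fun i hi => by simp [GT.pend, hi]
    have hne : ∀ i ∈ g.pend, ∀ j ∈ g'.pend, i.1 ≠ j.1 := by
      intro i hi j hj he
      have h7 := hp g i hi
      have h8 := hp g' j hj
      rw [← he] at h8
      exact Multiset.disjoint_left.1 hdis h7 h8
    have h3' : (attG x b g ++ attG x c g').Pairwise NC := h3
    rw [List.pairwise_append] at h3'
    obtain ⟨k1, k2, k3⟩ := h3'
    have hsub : ∀ e ∈ attG x b g, e ∈ (GT.bb x b g c g').edges := fun e he =>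
      List.mem_append_left _ he
    have hsub' : ∀ e ∈ attG x c g', e ∈ (GT.bb x b g c g').edges := fun e he =>
      List.mem_append_right _ he
    have hg : (g.plug D).edges.Pairwise NC := by
      refine ih h1g (fun i hi => h2 i (hpe i hi)) ?_ (fun i hi => h4 i (hpe i hi)) ?_ ?_
      · exact (List.pairwise_cons.1 k1).2
      · intro i hi e he
        exact h5 i (hpe i hi) e (hsub e (List.mem_cons_of_mem _ he))
      · intro i hi j hj
        exact h6 i (hpe i hi) j (hpe j hj)
    have hg' : (g'.plug D).edges.Pairwise NC := by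
      refine ih' h1g' (fun i hi => h2 i (hpe' i hi)) ?_ (fun i hi => h4 i (hpe' i hi)) ?_ ?_
      · exact (List.pairwise_cons.1 k2).2
      · intro i hi e he
        exact h5 i (hpe' i hi) e (hsub' e (List.mem_cons_of_mem _ he))
      · intro i hi j hj
        exact h6 i (hpe' i hi) j (hpe' j hj)
    have hB : (att x b (g.plug D)).Pairwise NC :=
      PLB_top hPLA g D x b (fun i hi => h2 i (hpe i hi)) k1
        (fun i hi e he => h5 i (hpe i hi) e (hsub e he)) hg
    have hB' : (att x c (g'.plug D)).Pairwise NC :=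
      PLB_top hPLA g' D x c (fun i hi => h2 i (hpe' i hi)) k2
        (fun i hi e he => h5 i (hpe' i hi) e (hsub' e he)) hg'
    have key : (att x b (g.plug D) ++ att x c (g'.plug D)).Pairwise NC := by
      rw [List.pairwise_append]
      refine ⟨hB, hB', ?_⟩
      intro e he f hf
      rcases (PLB_mem hPLA g D x b (fun i hi => h2 i (hpe i hi)) e).1 he with he | ⟨i, hi, he⟩
      · rcases (PLB_mem hPLA g' D x c (fun i hi => h2 i (hpe' i hi)) f).1 hf with
          hf | ⟨j, hj, hf⟩
        · exact k3 e he f hf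
        · exact h5 j (hpe' j hj) e (hsub e he) f hf
      · rcases (PLB_mem hPLA g' D x c (fun i hi => h2 i (hpe' i hi)) f).1 hf with
          hf | ⟨j, hj, hf⟩
        · exact hsym _ _ (h5 i (hpe i hi) f (hsub' f hf) e he)
        · exact h6 i (hpe i hi) j (hpe' j hj) (hne i hi j hj) e he f hf
    exact key

theorem PLB (hOB : OB_stmt) (hPLA : PLA_stmt) (hGTF : GTF_stmt) : PLB_stmt := by
  intro G D u h h1 h2 h3 h4 h5 h6
  refine PLB_top hPLA G D u h h2 h3 h5 (PLB_E hOB hPLA hGTF D G h1 h2 ?_ h4 ?_ h6)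
  · exact (List.pairwise_cons.1 h3).2
  · intro i hi e he
    exact h5 i hi e (List.mem_cons_of_mem _ he)

end LSH.Lin
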