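import Pool.Agent.helper66.LIN.Spec

set_option autoImplicit false

/-!
# Row lin:WTB (project lin, MP_60c1a7_co): the weight is at most size + 12 (leaves - 1)
-/

namespace LSH.Lin

/-- number of branching vertices whose small-first path has more than `j` vertices -/
def WTB_c (j : ℕ) : BT → ℕ
  | .leaf => 0
  | .un t => WTB_c j t
  | .br s t => WTB_c j s + WTB_c j t + if j + 2 ≤ (BT.br s t).pl then 1 else 0

/-- the sum of the squares -/
def WTB_q : BT → ℕ
  | .leaf => 0
  | .un t => WTB_q t
  | .br s t => WTB_q s + WTB_q t + ((BT.br s t).pl - 1) * ((BT.br s t).pl - 1)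

theorem WTB_pl (t : BT) : 1 ≤ t.pl := by
  cases t with
  | leaf => simp [BT.pl]
  | un t => simp [BT.pl]
  | br s t =>
    simp only [BT.pl]
    split_ifs <;> omega

theorem WTB_lv (t : BT) : 1 ≤ t.lv := by
  induction t with
  | leaf => simp [BT.lv]
  | un t ih => simpa [BT.lv] using ih
  | br s t ih _ =>
    simp only [BT.lv]
    omega

theorem WTB_pow (t : BT) : 2 ^ (t.pl - 1) ≤ t.lv := by
  induction t with
  | leaf => simp [BT.pl, BT.lv]
  | un t _ =>
    have := WTB_lv t
    simpa [BT.pl, BT.lv] using this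
  | br s t ihs iht =>
    have hs := WTB_pl s
    have ht := WTB_pl t
    simp only [BT.pl, BT.lv]
    split_ifs with h
    · have h1 : 2 ^ (s.pl + 1 - 1) = 2 * 2 ^ (s.pl - 1) := by
        rw [← pow_succ']
        congr 1
        omega
      rw [h1]
      omega
    · have h1 : 2 ^ (t.pl + 1 - 1) = 2 * 2 ^ (t.pl - 1) := by
        rw [← pow_succ']
        congr 1
        omega
      rw [h1]
      omega

theorem WTB_wt (t : BT) : t.wt = t.size + 2 * WTB_q t := by
  induction t with
  | leaf => simp [BT.wt, BT.size, WTB_q]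
  | un t ih =>
    simp only [BT.wt, BT.size, WTB_q]
    omega
  | br s t ihs iht =>
    have h : (BT.br s t).mm = ((BT.br s t).pl - 1) * ((BT.br s t).pl - 1) + 1 := rfl
    simp only [BT.wt, BT.size, WTB_q]
    rw [h]
    omega

theorem WTB_cnt (j : ℕ) (t : BT) : WTB_c j t = 0 ∨ (WTB_c j t + 1) * 2 ^ j ≤ t.lv := by
  induction t with
  | leaf => left; rfl
  | un t ih => simpa [WTB_c, BT.lv] using ih
  | br s t ihs iht =>
    by_cases h : j + 2 ≤ (BT.br s t).pl
    · right
      have key : 2 ^ j ≤ s.lv ∧ 2 ^ j ≤ t.lv := by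
        have hs := WTB_pl s
        have ht := WTB_pl t
        simp only [BT.pl] at h
        split_ifs at h with hst
        · have h1 : 2 ^ j ≤ 2 ^ (s.pl - 1) := Nat.pow_le_pow_right (by norm_num) (by omega)
          have h2 := h1.trans (WTB_pow s)
          exact ⟨h2, h2.trans hst⟩
        · have h1 : 2 ^ j ≤ 2 ^ (t.pl - 1) := Nat.pow_le_pow_right (by norm_num) (by omega)
          have h2 := h1.trans (WTB_pow t)
          exact ⟨h2.trans (by omega), h2⟩
      have hs : (WTB_c j s + 1) * 2 ^ j ≤ s.lv := by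
        rcases ihs with h0 | h0
        · rw [h0]
          simpa using key.1
        · exact h0
      have ht : (WTB_c j t + 1) * 2 ^ j ≤ t.lv := by
        rcases iht with h0 | h0
        · rw [h0]
          simpa using key.2
        · exact h0
      simp only [WTB_c, h, if_true, BT.lv]
      calc (WTB_c j s + WTB_c j t + 1 + 1) * 2 ^ j
          = (WTB_c j s + 1) * 2 ^ j + (WTB_c j t + 1) * 2 ^ j := by ring
        _ ≤ s.lv + t.lv := Nat.add_le_add hs ht
    · simp only [WTB_c, h, if_false, BT.lv, add_zero]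
      rcases ihs with h0 | h0 <;> rcases iht with h1 | h1
      · left
        omega
      · right
        rw [h0, zero_add]
        omega
      · right
        rw [h1, add_zero]
        omega
      · right
        have h2 : (WTB_c j s + WTB_c j t + 1) * 2 ^ j ≤
            (WTB_c j s + 1) * 2 ^ j + (WTB_c j t + 1) * 2 ^ j := by
          rw [← add_mul]
          exact Nat.mul_le_mul_right _ (by omega)
        omega

theorem WTB_sqr (n K : ℕ) (h : n ≤ K) :
    n * n = ∑ j ∈ Finset.range K, (2 * j + 1) * (if j + 1 ≤ n then 1 else 0) := by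
  induction K with
  | zero =>
    have : n = 0 := by omega
    subst this
    simp
  | succ K ih =>
    rw [Finset.sum_range_succ]
    by_cases hn : n ≤ K
    · rw [← ih hn]
      have : ¬ (K + 1 ≤ n) := by omega
      simp [this]
    · have hn' : n = K + 1 := by omega
      subst hn'
      have h1 : ∀ m : ℕ, ∑ j ∈ Finset.range m, (2 * j + 1) = m * m := by
        intro m
        induction m with
        | zero => simp
        | succ m ihm => rw [Finset.sum_range_succ, ihm]; ring
      have h2 : ∑ j ∈ Finset.range K, (2 * j + 1) * (if j + 1 ≤ K + 1 then 1 else 0) =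
          ∑ j ∈ Finset.range K, (2 * j + 1) := by
        apply Finset.sum_congr rfl
        intro j hj
        have : j + 1 ≤ K + 1 := by
          have := Finset.mem_range.1 hj
          omega
        simp [this]
      rw [h2, h1]
      simp
      ring

theorem WTB_sum (t : BT) (K : ℕ) (hK : t.lv ≤ K) :
    WTB_q t = ∑ j ∈ Finset.range K, (2 * j + 1) * WTB_c j t := by
  induction t with
  | leaf => simp [WTB_q, WTB_c]
  | un t ih =>
    simp only [BT.lv] at hK
    simpa [WTB_q, WTB_c] using ih hK
  | br s t ihs iht =>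
    have hs : s.lv ≤ K := by
      simp only [BT.lv] at hK
      omega
    have ht : t.lv ≤ K := by
      simp only [BT.lv] at hK
      omega
    have hp : (BT.br s t).pl - 1 ≤ K := by
      have h1 := WTB_pow (BT.br s t)
      have h2 : (BT.br s t).pl - 1 < 2 ^ ((BT.br s t).pl - 1) := Nat.lt_two_pow_self
      omega
    have h1 := WTB_pl (BT.br s t)
    simp only [WTB_q, WTB_c]
    rw [ihs hs, iht ht, WTB_sqr _ K hp, ← Finset.sum_add_distrib, ← Finset.sum_add_distrib]
    apply Finset.sum_congr rfl
    intro j _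
    have h2 : (j + 1 ≤ (BT.br s t).pl - 1) ↔ (j + 2 ≤ (BT.br s t).pl) := by omega
    simp only [h2]
    ring

theorem WTB_geo (K : ℕ) :
    ∑ j ∈ Finset.range K, (2 * (j : ℚ) + 1) / 2 ^ j = 6 - (4 * K + 6) / 2 ^ K := by
  induction K with
  | zero => norm_num
  | succ K ih =>
    rw [Finset.sum_range_succ, ih, pow_succ]
    have : (2 : ℚ) ^ K ≠ 0 := by positivity
    push_cast
    field_simp
    ring

theorem WTB : WTB_stmt := by
  intro t
  have hl := WTB_lv t
  have hc : ∀ j, (WTB_c j t : ℚ) ≤ ((t.lv : ℚ) - 1) / 2 ^ j := by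
    intro j
    have hp : (0 : ℚ) < 2 ^ j := by positivity
    rw [le_div_iff₀ hp]
    rcases WTB_cnt j t with h | h
    · rw [h]
      have : (1 : ℚ) ≤ t.lv := by exact_mod_cast hl
      simp
      linarith
    · have h1 : ((WTB_c j t : ℚ) + 1) * 2 ^ j ≤ t.lv := by exact_mod_cast h
      have h2 : (1 : ℚ) ≤ 2 ^ j := one_le_pow₀ (by norm_num)
      linarith
  have h1 : (WTB_q t : ℚ) ≤ 6 * ((t.lv : ℚ) - 1) := by
    rw [WTB_sum t t.lv le_rfl]
    push_cast
    calc ∑ j ∈ Finset.range t.lv, (2 * (j : ℚ) + 1) * (WTB_c j t : ℚ)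
        ≤ ∑ j ∈ Finset.range t.lv, (2 * (j : ℚ) + 1) * (((t.lv : ℚ) - 1) / 2 ^ j) := by
          apply Finset.sum_le_sum
          intro j _
          exact mul_le_mul_of_nonneg_left (hc j) (by positivity)
      _ = (∑ j ∈ Finset.range t.lv, (2 * (j : ℚ) + 1) / 2 ^ j) * ((t.lv : ℚ) - 1) := by
          rw [Finset.sum_mul]
          apply Finset.sum_congr rfl
          intro j _
          ring
      _ ≤ 6 * ((t.lv : ℚ) - 1) := by
          apply mul_le_mul_of_nonneg_right
          · rw [WTB_geo]
            have : (0 : ℚ) ≤ (4 * (t.lv : ℚ) + 6) / 2 ^ t.lv := by positivity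
            linarith
          · have : (1 : ℚ) ≤ t.lv := by exact_mod_cast hl
            linarith
  have h2 : (WTB_q t : ℚ) + 6 ≤ 6 * (t.lv : ℚ) := by linarith
  have h3 : WTB_q t + 6 ≤ 6 * t.lv := by exact_mod_cast h2
  rw [WTB_wt]
  omega

end LSH.Lin
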