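import Pool.Agent.helper83.LS.Asm
import Pool.Agent.helper83.LS.CX
import Pool.Agent.helper19.LIN.CHO
import Pool.Agent.helper19.LIN.GDN
import Pool.Agent.helper24.LIN.PIN
import Pool.Agent.helper25.LIN.PLG
import Pool.Agent.helper26.LIN.RGN
import Pool.Agent.helper29.LIN.NCN
import Pool.Agent.helper3.LIN.ATT
import Pool.Agent.helper31.LIN.ESZ
import Pool.Agent.helper32.LIN.VSN
import Pool.Agent.helper41.LIN.NSG
import Pool.Agent.helper64.LIN.CHP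
import Pool.Agent.helper66.LIN.GUP
import Pool.Agent.helper66.LIN.LPD
import Pool.Agent.helper66.LIN.MAN
import Pool.Agent.helper66.LIN.PLA
import Pool.Agent.helper66.LIN.PLB
import Pool.Agent.helper66.LIN.WTB
import Pool.Agent.helper72.LIN.GTF
import Pool.Agent.helper72.LIN.NDR
import Pool.Agent.helper72.LIN.NVC
import Pool.Agent.helper72.LIN.VLM
import Pool.Agent.helper74.LIN.FNL
import Pool.Agent.helper80.LIN.NBD
import Pool.Agent.helper83.LIN.GRE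
import Pool.Agent.helper85.LIN.INI
import Pool.Agent.helper87.LIN.NPT
import Pool.Agent.helper89.LIN.XNC
import Pool.Agent.helper91.LIN.LST
import Pool.Agent.helper93.LIN.NCF

/-!
# Linear point sets (MP_60c1a7_co): all rows
-/

set_option autoImplicit false

namespace LSH.Lin

theorem m_ESZ : ESZ_stmt :=
  ESZ 
theorem m_GTF : GTF_stmt :=
  GTF 
theorem m_GRE : GRE_stmt :=
  GRE 
theorem m_PIN : PIN_stmt :=
  PIN OB m_GTF
theorem m_LPD : LPD_stmt :=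
  LPD OB m_GTF
theorem m_ATT : ATT_stmt :=
  ATT OB m_GTF
theorem m_GUP : GUP_stmt :=
  GUP m_ESZ m_PIN m_LPD m_ATT m_GTF OB
theorem m_GDN : GDN_stmt :=
  GDN m_GUP m_GRE
theorem m_VSN : VSN_stmt :=
  VSN 
theorem m_CHP : CHP_stmt :=
  CHP m_VSN m_GTF
theorem m_CHO : CHO_stmt :=
  CHO m_CHP m_GTF
theorem m_LST : LST_stmt :=
  LST 
theorem m_RGN : RGN_stmt :=
  RGN OB m_GTF
theorem m_NSG : NSG_stmt :=
  NSG m_GTF
theorem m_NDR : NDR_stmt :=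
  NDR m_RGN m_NSG
theorem m_VLM : VLM_stmt :=
  VLM m_GTF
theorem m_NVC : NVC_stmt :=
  NVC m_NSG m_VLM
theorem m_NCN : NCN_stmt :=
  NCN m_NSG m_VLM m_GTF
theorem m_NPT : NPT_stmt :=
  NPT m_NSG m_LST m_GTF
theorem m_NCF : NCF_stmt :=
  NCF m_NSG m_VLM m_NVC m_NCN m_NPT m_GTF
theorem m_PLA : PLA_stmt :=
  PLA 
theorem m_PLB : PLB_stmt :=
  PLB OB m_PLA m_GTF
theorem m_XNC : XNC_stmt :=
  XNC OB EE m_GTF m_RGN m_NDR m_NSG m_VLM
theorem m_PLG : PLG_stmt :=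
  PLG m_XNC m_PLA m_PLB m_RGN m_NDR m_NSG m_VLM m_GTF OB
theorem m_MAN : MAN_stmt :=
  MAN m_CHO m_GUP m_GDN m_NCF m_PLG m_GTF
theorem m_INI : INI_stmt :=
  INI m_MAN m_GTF
theorem m_WTB : WTB_stmt :=
  WTB 
theorem m_NBD : NBD_stmt :=
  NBD TR
theorem m_FNL : FNL_stmt :=
  FNL m_INI m_WTB m_NBD asm_RE asm_EM m_GTF

/-- the theorem -/
theorem main (n : ℕ) (T : SimpleGraph (Fin n)) (hT : T.IsTree)
    (hdeg : ∀ v, (T.neighborSet v).ncard ≤ 3) (P : Finset (ℝ × ℝ))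
    (hP : n + 12 * {v | (T.neighborSet v).ncard = 3}.ncard ≤ P.card)
    (hgen : ∀ p ∈ P, ∀ q ∈ P, p ≠ q → p.1 ≠ q.1 ∧ p.2 ≠ q.2) : Emb n T P :=
  m_FNL (fun n T hT => CX_leaf T hT) n T hT hdeg P hP hgen

end LSH.Lin
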