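import Pool.Agent.helper83.LS.Spec

set_option autoImplicit false

/-!
# Linear point sets for trees of maximum degree 3 (MP_60c1a7_co): definitions (project lin)

Points, L-shaped edges `Edge`, `NC` (two edges meet only in common end points), `Gen` (orthogonal
general position), shapes `BT`, placed trees `PT`, `att`, `Draw` are those of
`Pool.Agent.helper83.LS.Defs`.  A reminder: in `⟨a, b, true⟩ : Edge` the horizontal segment leaves
`a` (bend `(b.1, a.2)`), in `⟨a, b, false⟩` the vertical one (bend `(a.1, b.2)`).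

New: shapes with the functions `lv`, `pl`, `mm`, `wt`; gadgets `GT`: placed trees in which some
subtrees are still pending (they will be reached by an edge which leaves their parent to the
right, horizontally); configurations `Cfg` of the sweep; solutions `Good`.
-/

namespace LSH

/-- number of leaves (= number of branching vertices + 1) -/
def BT.lv : BT → ℕ
  | .leaf => 1
  | .un t => t.lv
  | .br s t => s.lv + t.lv

/-- number of vertices of the path which always goes to the child with fewer leaves and stops at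
the first vertex with at most one child -/
def BT.pl : BT → ℕ
  | .leaf => 1
  | .un _ => 1
  | .br s t => if s.lv ≤ t.lv then s.pl + 1 else t.pl + 1

/-- the threshold -/
def BT.mm (t : BT) : ℕ := (t.pl - 1) * (t.pl - 1) + 1

/-- the weight: the sum of the numbers `2 mm - 1` over all vertices -/
def BT.wt : BT → ℕ
  | .leaf => 1
  | .un t => 1 + t.wt
  | .br s t => 2 * (BT.br s t).mm - 1 + s.wt + t.wt

/-- gadgets: placed trees with pending subtrees.
`leaf x`: vertex without children; `un x t`: one child, pending, shape `t`;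
`bl x s h g`: first child pending (shape `s`), second child placed (`g`), bend `h`;
`br x h g t`: first child placed, second child pending (shape `t`);
`bb x h g k g'`: both children placed. -/
inductive GT : Type
  | leaf : Pt → GT
  | un : Pt → BT → GT
  | bl : Pt → BT → Bool → GT → GT
  | br : Pt → Bool → GT → BT → GT
  | bb : Pt → Bool → GT → Bool → GT → GT

def GT.shape : GT → BT
  | .leaf _ => .leaf
  | .un _ t => .un t
  | .bl _ s _ g => .br s g.shape
  | .br _ _ g t => .br g.shape t
  | .bb _ _ g _ g' => .br g.shape g'.shape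

def GT.root : GT → Pt
  | .leaf x => x
  | .un x _ => x
  | .bl x _ _ _ => x
  | .br x _ _ _ => x
  | .bb x _ _ _ _ => x

/-- the points of a gadget -/
def GT.pts : GT → Multiset Pt
  | .leaf x => {x}
  | .un x _ => {x}
  | .bl x _ _ g => x ::ₘ g.pts
  | .br x _ g _ => x ::ₘ g.pts
  | .bb x _ g _ g' => x ::ₘ (g.pts + g'.pts)

/-- the edges of a gadget, from the parent to the child -/
def GT.edges : GT → List Edge
  | .leaf _ => []
  | .un _ _ => []
  | .bl x _ h g => ⟨x, g.root, h⟩ :: g.edges
  | .br x h g _ => ⟨x, g.root, h⟩ :: g.edges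
  | .bb x h g k g' => (⟨x, g.root, h⟩ :: g.edges) ++ (⟨x, g'.root, k⟩ :: g'.edges)

/-- the pending subtrees, with the points of their parents -/
def GT.pend : GT → Multiset (Pt × BT)
  | .leaf _ => 0
  | .un x t => {(x, t)}
  | .bl x s _ g => (x, s) ::ₘ g.pend
  | .br x _ g t => (x, t) ::ₘ g.pend
  | .bb _ _ g _ g' => g.pend + g'.pend

/-- insert the placed trees `D x` at the pending places (`x` the parent) -/
def GT.plug (D : Pt → PT) : GT → PT
  | .leaf x => .leaf x
  | .un x _ => .un x true (D x)
  | .bl x _ h g => .br x true (D x) h (g.plug D)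
  | .br x h g _ => .br x h (g.plug D) true (D x)
  | .bb x h g k g' => .br x h (g.plug D) k (g'.plug D)

/-- apply a map to all points of a gadget -/
def GT.map (φ : Pt → Pt) : GT → GT
  | .leaf x => .leaf (φ x)
  | .un x t => .un (φ x) t
  | .bl x s h g => .bl (φ x) s h (g.map φ)
  | .br x h g t => .br (φ x) h (g.map φ) t
  | .bb x h g k g' => .bb (φ x) h (g.map φ) k (g'.map φ)

/-- the edges of a gadget and the edge from `u` to its root -/
def attG (u : Pt) (h : Bool) (g : GT) : List Edge := ⟨u, g.root, h⟩ :: g.edges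

/-- increasing chains -/
def Inc (C : Finset Pt) : Prop := ∀ a ∈ C, ∀ b ∈ C, a.1 < b.1 → a.2 < b.2

/-- decreasing chains -/
def Dec (C : Finset Pt) : Prop := ∀ a ∈ C, ∀ b ∈ C, a.1 < b.1 → b.2 < a.2

/-- a gadget of shape `t` with points in `C`, planar, and such that no edge meets the open right
ray of a pending point -/
structure Pre (t : BT) (C : Finset Pt) (G : GT) : Prop where
  shape : G.shape = t
  pts : ∀ p ∈ G.pts, p ∈ C
  nodup : G.pts.Nodup
  nc : G.edges.Pairwise NC
  ray : ∀ i ∈ G.pend, ∀ e ∈ G.edges, ∀ z, e.on z → z.2 = i.1.2 → z.1 ≤ i.1.1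

/-- the same together with the edge from `u` to the root, which leaves `u` horizontally -/
structure Gad (u : Pt) (t : BT) (C : Finset Pt) (G : GT) : Prop where
  shape : G.shape = t
  pts : ∀ p ∈ G.pts, p ∈ C
  nodup : G.pts.Nodup
  nc : (attG u true G).Pairwise NC
  ray : ∀ i ∈ G.pend, ∀ e ∈ attG u true G, ∀ z, e.on z → z.2 = i.1.2 → z.1 ≤ i.1.1

/-- `y` is visible from the height of `u`: no other live height between them.
The elements of `L` are the live points with the shape of their pending subtree. -/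
def Vis (L : Multiset (Pt × BT)) (u : Pt) (y : ℝ) : Prop :=
  ∀ i ∈ L, i.1 ≠ u → i.1.2 ∉ Set.uIcc u.2 y

open Classical in
/-- the available points (to the right of the front `σ`) with `x ≤ c` in the zone above
(`up = true`) or below (`up = false`) the live point `u` -/
noncomputable def avs (P : Finset Pt) (L : Multiset (Pt × BT)) (σ : ℝ → ℝ) (u : Pt) (up : Bool)
    (c : ℝ) : Finset Pt :=
  P.filter (fun p => σ p.2 < p.1 ∧ p.1 ≤ c ∧ Vis L u p.2 ∧
    ((up = true ∧ u.2 < p.2) ∨ (up = false ∧ p.2 < u.2)))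

open Classical in
/-- all available points -/
noncomputable def avl (P : Finset Pt) (σ : ℝ → ℝ) : Finset Pt := P.filter (fun p => σ p.2 < p.1)

/-- a configuration of the sweep: live points `L` (with the shapes of the pending subtrees), front
`σ` (the drawing made so far lies in `x ≤ σ y`), sweep position `X` -/
structure Cfg (P : Finset Pt) (L : Multiset (Pt × BT)) (σ : ℝ → ℝ) (X : ℝ) : Prop where
  gen : Gen (P : Set Pt)
  nd : (L.map Prod.fst).Nodup
  mem : ∀ i ∈ L, i.1 ∈ P
  live : ∀ i ∈ L, σ i.1.2 = i.1.1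
  vis : ∀ i ∈ L, ∀ y, Vis L i.1 y → i.1.1 ≤ σ y
  const : ∀ y y', (∀ i ∈ L, i.1.2 ∉ Set.uIcc y y') → σ y = σ y'
  sweep : ∀ y, σ y ≤ X
  cnt : ∀ i ∈ L, ∀ up, (avs P L σ i.1 up X).card < i.2.mm
  pot : (L.map (fun i => i.2.wt)).sum ≤ (avl P σ).card

/-- the placed trees `D u` (`u` live) solve the configuration -/
structure Good (P : Finset Pt) (L : Multiset (Pt × BT)) (σ : ℝ → ℝ) (D : Pt → PT) : Prop where
  shape : ∀ i ∈ L, (D i.1).shape = i.2
  pts : ∀ i ∈ L, ∀ p ∈ (D i.1).pts, p ∈ P ∧ σ p.2 < p.1
  nodup : ∀ i ∈ L, (D i.1).pts.Nodup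
  disj : ∀ i ∈ L, ∀ j ∈ L, i.1 ≠ j.1 → ∀ p ∈ (D i.1).pts, p ∉ (D j.1).pts
  nc : ∀ i ∈ L, (att i.1 true (D i.1)).Pairwise NC
  ncd : ∀ i ∈ L, ∀ j ∈ L, i.1 ≠ j.1 →
    ∀ e ∈ att i.1 true (D i.1), ∀ f ∈ att j.1 true (D j.1), NC e f
  reg : ∀ i ∈ L, ∀ e ∈ att i.1 true (D i.1), ∀ z, e.on z → z = i.1 ∨ σ z.2 < z.1

/-- the situation after a choice: the live point `u` with pending shape `t`, the direction `up`,
the new sweep position `x₁`, which is the first coordinate of `q` -/
structure Choice (P : Finset Pt) (L : Multiset (Pt × BT)) (σ : ℝ → ℝ) (X : ℝ) (u : Pt) (t : BT)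
    (up : Bool) (x₁ : ℝ) (q : Pt) : Prop where
  lt : X < x₁
  hq : q ∈ avs P L σ u up x₁
  q1 : q.1 = x₁
  big : t.mm ≤ (avs P L σ u up x₁).card
  small : ∀ j ∈ L, ∀ d, ((avs P L σ j.1 d x₁).erase q).card < j.2.mm

/-- a choice together with a gadget on the points of the chosen zone -/
structure Step (P : Finset Pt) (L₀ : Multiset (Pt × BT)) (σ : ℝ → ℝ) (X : ℝ) (u : Pt) (t : BT)
    (up : Bool) (x₁ : ℝ) (q : Pt) (G : GT) : Prop where
  cfg : Cfg P ((u, t) ::ₘ L₀) σ X
  ch : Choice P ((u, t) ::ₘ L₀) σ X u t up x₁ q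
  gad : Gad u t (avs P ((u, t) ::ₘ L₀) σ u up x₁) G

open Classical in
/-- the new front: at the heights of the new live points `N` their first coordinate, at the other
heights visible from `u` the new sweep position `x₁`, elsewhere as before -/
noncomputable def nsig (L : Multiset (Pt × BT)) (σ : ℝ → ℝ) (u : Pt) (x₁ : ℝ)
    (N : Multiset (Pt × BT)) (y : ℝ) : ℝ :=
  if h : ∃ i ∈ N, i.1.2 = y then (Classical.choose h).1.1 else if Vis L u y then x₁ else σ y

/-- no edge of the gadget meets the vertical half line below the root (except in the root) -/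
def Below (G : GT) : Prop :=
  ∀ e ∈ G.edges, ∀ z, e.on z → z.1 = G.root.1 → z.2 ≤ G.root.2 → z = G.root

end LSH
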