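import Pool.Agent.helper66.LIN.Defs

set_option autoImplicit false

/-!
# Project lin (MP_60c1a7_co): statements of the modules

THEOREM: every tree with `n` vertices and maximum degree at most 3 has an L-shaped embedding with
vertices in `P`, for every point set `P` in orthogonal general position with `n + 12 b ≤ |P|`,
where `b` is the number of vertices of degree 3.

Module `XXX`: file `Pool/Agent/<seat>/LIN/XXX.lean`, `import Pool.Agent.helper66.LIN.Spec`,
`namespace LSH.Lin`, `theorem XXX (hYYY : YYY_stmt) ... : XXX_stmt` (exact line in the lock note),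
auxiliary lemmas prefixed `XXX_`.  `OB_stmt`, `SX_stmt`, `RE_stmt`, `EM_stmt` are statements of the
finished library `Pool.Agent.helper83.LS.Spec` (namespace `LSH`).  No double quotes in the file.

Used all the time: `OB_stmt` (an edge lies in the box of its end points; a third point of a set in
general position is not on the edge; the end points are on it; `NC` is symmetric).
-/

namespace LSH.Lin

/-! ## Chains and gadgets -/

/-- `ESZ` (Erdos, Szekeres).  For `z ∈ Z` let `i z` be the maximal size of an increasing chain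
contained in `Z` whose rightmost point is `z` (sup over `Z.powerset.filter ...`), `d z` the same for
decreasing chains; `i z, d z ≥ 1`.  If there is no chain as claimed then `i z ≤ p - 1`,
`d z ≤ a - 1` (a subset of a chain is a chain, `Finset.exists_subset_card_eq`).  The map
`z ↦ (i z, d z)` is injective on `Z`: if `z.1 < w.1` then `i w ≥ i z + 1` if `z.2 < w.2`, and
`d w ≥ d z + 1` otherwise.  So `|Z| ≤ (a - 1)(p - 1)`. -/
def ESZ_stmt : Prop :=
  ∀ (Z : Finset Pt) (a p : ℕ), Gen (Z : Set Pt) → (a - 1) * (p - 1) + 1 ≤ Z.card →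
    ∃ C ⊆ Z, (Inc C ∧ C.card = p) ∨ (Dec C ∧ C.card = a)

/-- `GTF`: simple facts on gadgets, all by induction on `G` (for the weights:
`(BT.un t).mm = 1`, `BT.leaf.mm = 1`). -/
def GTF_stmt : Prop :=
  (∀ G : GT, G.root ∈ G.pts) ∧
  (∀ (G : GT) (e : Edge), e ∈ G.edges → e.a ∈ G.pts ∧ e.b ∈ G.pts) ∧
  (∀ (G : GT) (i : Pt × BT), i ∈ G.pend → i.1 ∈ G.pts) ∧
  (∀ G : GT, G.pts.Nodup → (G.pend.map Prod.fst).Nodup) ∧
  (∀ G : GT, (G.pend.map (fun i => i.2.wt)).sum + 2 * G.shape.mm ≤ G.shape.wt + 1) ∧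
  (∀ G : GT, (G.pend.map (fun i => i.2.size)).sum + 1 ≤ G.shape.size) ∧
  (∀ (G : GT) (u : Pt) (h : Bool) (p : Pt), p ∈ G.pts → ∃ e ∈ attG u h G, e.b = p) ∧
  (∀ t : BT, 1 ≤ t.mm ∧ 2 * t.mm ≤ t.wt + 1 ∧ 1 ≤ t.pl ∧ 1 ≤ t.lv)

/-- `GRE`: reflection in the horizontal axis.  `(G.map fy).shape = G.shape`,
`(G.map fy).edges = G.edges.map (fun e => ⟨fy e.a, fy e.b, e.h⟩)`,
`(G.map fy).pend = G.pend.map (fun i => (fy i.1, i.2))`, and `e.on z` iff the reflected edge
contains `fy z` (`fy` is an involution); `NC` is preserved. -/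
def GRE_stmt : Prop :=
  (∀ G : GT, (G.map fy).root = fy G.root ∧ (G.map fy).pts = G.pts.map fy) ∧
  (∀ (t : BT) (C : Finset Pt) (G : GT), Pre t C G → Pre t (C.image fy) (G.map fy)) ∧
  (∀ (u : Pt) (t : BT) (C : Finset Pt) (G : GT), Gad u t C G →
    Gad (fy u) t (C.image fy) (G.map fy))

/-- `PIN`: the small-first path on an increasing chain, going up and to the right; every edge
leaves the parent vertically and enters the child horizontally from the left.
Induction on `t` for all `C`.  `leaf`, `un`: any point `x` of `C`, gadget `.leaf x`, `.un x t`.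
`br s t` with `s.lv ≤ t.lv`: `x` = leftmost point of `C`, `G'` from the induction hypothesis for
`s` on `C.erase x`, `G = .br x false G' t` (in the other case `G'` for `t`, `G = .bl x s false G'`).
All points of `C.erase x` are to the right of and above `x`.
NC of the new edge `e = ⟨x, r, false⟩` (`r = G'.root`) with `f ∈ G'.edges`: `f` lies in
`z.1 ≥ r.1, z.2 ≥ r.2` (box of its end points), `e` in `z.1 ≤ r.1`, `z.2 ≤ r.2`, so a common point is
`r`, which is `e.b`, and an end point of `f` by `OB` (part 2).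
Rays: pending `(x, _)`: a point `z` of an edge with `z.2 = x.2` is on the vertical segment of `e`
(the others have `z.2 ≥ r.2 > x.2`).  Pending `i` of `G'` and `z` on `e`: `z.1 ≤ r.1 ≤ i.1.1`. -/
def PIN_stmt : Prop :=
  ∀ (t : BT) (C : Finset Pt), Gen (C : Set Pt) → Inc C → t.pl ≤ C.card →
    ∃ G : GT, Pre t C G ∧ ∀ p ∈ G.pts, G.root.1 ≤ p.1 ∧ G.root.2 ≤ p.2

/-- `LPD` (copy of `PIN`): the small-first path on a decreasing chain, going up and to the left; every
edge leaves the parent horizontally (to the left) and enters the child vertically from below; all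
right rays are free, since everything further down the path is higher, and everything before is
lower.  Induction on `t` for all `C`.  `leaf`, `un`: any point.  `br s t` with `s.lv ≤ t.lv`: `x` =
rightmost (= lowest) point of `C`, `G'` from the induction hypothesis for `s` on `C.erase x`,
`G = .br x true G' t` (other case: `.bl x s true G'`).  Let `r = G'.root`, `e = ⟨x, r, true⟩`.
Edges of `G'` lie in `z.1 ≤ r.1`, `z.2 ≥ r.2 > x.2`; `z` on `e`: (`z.2 = x.2`, `r.1 ≤ z.1 ≤ x.1`) or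
(`z.1 = r.1`, `x.2 ≤ z.2 ≤ r.2`).  A common point of `e` and an edge of `G'` is `r`.
Rays: pending `(x, _)`: only the horizontal segment of `e` is at the height of `x`.  Pending `i` of
`G'` and `z` on `e` with `z.2 = i.1.2 ≥ r.2`: `z = r`, and `i.1.2 = r.2` gives `i.1 = r` (general
position).  `Below G`: edges of `G'` have `z.1 ≤ r.1 < x.1`; `e` meets the line `z.1 = x.1` in `x`. -/
def LPD_stmt : Prop :=
  ∀ (t : BT) (C : Finset Pt), Gen (C : Set Pt) → Dec C → t.pl ≤ C.card →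
    ∃ G : GT, Pre t C G ∧ Below G ∧ ∀ p ∈ G.pts, p.1 ≤ G.root.1 ∧ G.root.2 ≤ p.2

/-- `ATT`: the edge `e₀ = ⟨u, r, true⟩` from `u`, below and to the left of `C`, to the root `r`.
Points of `e₀`: (`z.2 = u.2`, `u.1 ≤ z.1 ≤ r.1`) or (`z.1 = r.1`, `u.2 ≤ z.2 ≤ r.2`).  Edges of `G`
lie above the height of `u`, so by `Below G` a common point with `e₀` is `r`, an end point of the
edge (`OB`).  Rays: a point of `e₀` at height `i.1.2 > u.2` is `(r.1, i.1.2)` with
`i.1.2 ≤ r.2`; use the last hypothesis. -/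
def ATT_stmt : Prop :=
  ∀ (u : Pt) (t : BT) (C : Finset Pt) (G : GT), Gen (insert u (C : Set Pt)) →
    (∀ c ∈ C, u.1 < c.1 ∧ u.2 < c.2) → Pre t C G → Below G →
    (∀ i ∈ G.pend, G.root.1 ≤ i.1.1 ∨ G.root.2 < i.1.2) → Gad u t C G

/-- `GUP` (from `ESZ`, `PIN`, `LPD`, `ATT`, `GTF`, `OB`): `mm` points above and to the right of `u`
suffice for a gadget.  `ESZ` with `a = p = t.pl`.  Increasing chain: `PIN` (then all edges
of `G` lie in `z.1 ≥ r.1, z.2 ≥ r.2`, hence `Below G`).  Decreasing chain: `LPD`; a point `p` of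
`C` with `p.1 < r.1` has `r.2 < p.2`. -/
def GUP_stmt : Prop :=
  ∀ (u : Pt) (t : BT) (Z : Finset Pt), Gen (insert u (Z : Set Pt)) →
    (∀ z ∈ Z, u.1 < z.1 ∧ u.2 < z.2) → t.mm ≤ Z.card → ∃ G : GT, Gad u t Z G

/-- `GDN` (from `GUP`, `GRE`): the reflected statement (apply `GUP` to `fy u`, `Z.image fy`, then
reflect the gadget). -/
def GDN_stmt : Prop :=
  ∀ (u : Pt) (t : BT) (Z : Finset Pt), Gen (insert u (Z : Set Pt)) →
    (∀ z ∈ Z, u.1 < z.1 ∧ z.2 < u.2) → t.mm ≤ Z.card → ∃ G : GT, Gad u t Z G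

/-! ## The choice -/

/-- `VSN`: an available point is visible from some live point (the one with the nearest height;
its height is different from that of the point, since the point is not live: live points `i.1`
satisfy `σ i.1.2 = i.1.1`; heights of different points of `P` are different). -/
def VSN_stmt : Prop :=
  ∀ (P : Finset Pt) (L : Multiset (Pt × BT)) (σ : ℝ → ℝ) (X : ℝ), Cfg P L σ X → L ≠ 0 →
    ∀ p ∈ P, σ p.2 < p.1 → ∀ c, p.1 ≤ c → ∃ i ∈ L, ∃ up, p ∈ avs P L σ i.1 up c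

/-- `CHP` (from `VSN`, `GTF`): pigeonhole.  Let `c` be the maximum of the first coordinates of the
points of `P` (`P` is not empty: `mem`).  If all `(avs P L σ i.1 up c).card < i.2.mm`, then by `VSN`
`|avl P σ| ≤ ∑_{i ∈ L} (|avs i true| + |avs i false|) ≤ ∑_{i ∈ L} (2 mm - 2) < ∑_{i ∈ L} wt ≤ |avl P σ|`
(`2 mm - 1 ≤ wt`).
(The first step by a general lemma: if a finset `A` is covered by the sets `F i`, `i ∈ L`, then
`|A| ≤ (L.map (fun i => (F i).card)).sum`, `Multiset.induction_on`.) -/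
def CHP_stmt : Prop :=
  ∀ (P : Finset Pt) (L : Multiset (Pt × BT)) (σ : ℝ → ℝ) (X : ℝ), Cfg P L σ X → L ≠ 0 →
    ∃ q ∈ P, ∃ i ∈ L, ∃ up, i.2.mm ≤ (avs P L σ i.1 up q.1).card

/-- `CHO` (from `CHP`, `GTF`): take `q ∈ P` with minimal first coordinate among the `q` as in `CHP`
(`Finset.exists_min_image`), `x₁ = q.1`, `(u, t) = i`.  `lt`: if `x₁ ≤ X` then
`avs … x₁ ⊆ avs … X`, against `cnt`.  `small`: let `B = (avs P L σ j.1 d x₁).erase q` and suppose
`j.2.mm ≤ |B|`; `B ≠ ∅` as `1 ≤ mm`; all points of `B` have first coordinate `< x₁` (general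
position); let `q' ∈ B` have the maximal first coordinate; `B ⊆ avs P L σ j.1 d q'.1`, against the
minimality of `q`.  `hq`: otherwise `(avs P L σ u up x₁).erase q = avs P L σ u up x₁`, against
`small` for `(u, t)`. -/
def CHO_stmt : Prop :=
  ∀ (P : Finset Pt) (L : Multiset (Pt × BT)) (σ : ℝ → ℝ) (X : ℝ), Cfg P L σ X → L ≠ 0 →
    ∃ u t up x₁ q, (u, t) ∈ L ∧ Choice P L σ X u t up x₁ q

/-! ## The new configuration -/

open Classical in
/-- `LST`: the number of lost points.  A point `p` of this set is not `u` (`σ u.2 = u.1`), so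
`p.2 ≠ u.2` and `p` is in `avs P L σ u up x₁` or in `avs P L σ u (!up) x₁`.  The first set has at most
`mm` points (`small` for `(u, t)`, `up`), the second one does not contain `q` (which is on the other
side), so `small` gives at most `mm - 1`. -/
def LST_stmt : Prop :=
  ∀ (P : Finset Pt) (L : Multiset (Pt × BT)) (σ : ℝ → ℝ) (X : ℝ) (u : Pt) (t : BT) (up : Bool)
    (x₁ : ℝ) (q : Pt), Cfg P L σ X → (u, t) ∈ L → Choice P L σ X u t up x₁ q →
    (P.filter (fun p => σ p.2 < p.1 ∧ p.1 ≤ x₁ ∧ Vis L u p.2)).card + 1 ≤ 2 * t.mm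

/-- `RGN` (from `OB`, `GTF`): where the edges of a gadget are.  `r = G.root`.
First edge `e = ⟨u, r, true⟩`: `u.1 ≤ σ r.2 < r.1 ≤ x₁` (`vis`, `r` available).  `z` on the horizontal
segment: `z.2 = u.2`, `u.1 ≤ z.1`, and `σ u.2 = u.1` (`live`), so `z = u` or `σ z.2 < z.1`.
`z` on the vertical segment: `z.1 = r.1`; if `z.2 = u.2` again `σ z.2 = u.1 < r.1`; otherwise no live
height is in `uIcc z.2 r.2` (`Vis L u r.2`, and `u.2` is not in it), so `σ z.2 = σ r.2 < r.1`
(`const`).  Other edges: both end points are available, visible from `u` and on the same side of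
`u`, so no live height is in `uIcc e.a.2 e.b.2`; a point `z` of the edge is in the box, and
`σ z.2 = σ e.a.2 = σ e.b.2` is smaller than both first coordinates.  `Vis L u z.2`: `z.2` lies between
visible heights, or between `u.2` and a visible height. -/
def RGN_stmt : Prop :=
  ∀ (P : Finset Pt) (L : Multiset (Pt × BT)) (σ : ℝ → ℝ) (X : ℝ) (u : Pt) (t : BT) (up : Bool)
    (x₁ : ℝ) (G : GT), Cfg P L σ X → (u, t) ∈ L → Gad u t (avs P L σ u up x₁) G →
    ∀ e ∈ attG u true G, ∀ z, e.on z → (z = u ∨ σ z.2 < z.1) ∧ z.1 ≤ x₁ ∧ Vis L u z.2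

/-- `NSG` (from `GTF`): the new front.  Pending points are available points of `P`; two of them with
the same height are equal (general position), so the choice in `nsig` gives the right first
coordinate.  Their heights are visible from `u`.  Bounds: at a pending height
`σ i.1.2 < i.1.1 ≤ x₁`, else `σ y ≤ X < x₁`. -/
def NSG_stmt : Prop :=
  ∀ (P : Finset Pt) (L₀ : Multiset (Pt × BT)) (σ : ℝ → ℝ) (X : ℝ) (u : Pt) (t : BT) (up : Bool)
    (x₁ : ℝ) (q : Pt) (G : GT), Step P L₀ σ X u t up x₁ q G →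
    (∀ i ∈ G.pend, nsig ((u, t) ::ₘ L₀) σ u x₁ G.pend i.1.2 = i.1.1) ∧
    (∀ y, Vis ((u, t) ::ₘ L₀) u y → (∀ i ∈ G.pend, i.1.2 ≠ y) →
      nsig ((u, t) ::ₘ L₀) σ u x₁ G.pend y = x₁) ∧
    (∀ y, ¬ Vis ((u, t) ::ₘ L₀) u y → nsig ((u, t) ::ₘ L₀) σ u x₁ G.pend y = σ y) ∧
    (∀ y, σ y ≤ nsig ((u, t) ::ₘ L₀) σ u x₁ G.pend y ∧
      nsig ((u, t) ::ₘ L₀) σ u x₁ G.pend y ≤ x₁)

/-- `NDR` (from `RGN`, `NSG`): the gadget is on the left of the new front: at a pending height by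
`Gad.ray`, at the other heights by `z.1 ≤ x₁` (`RGN`, `NSG`). -/
def NDR_stmt : Prop :=
  ∀ (P : Finset Pt) (L₀ : Multiset (Pt × BT)) (σ : ℝ → ℝ) (X : ℝ) (u : Pt) (t : BT) (up : Bool)
    (x₁ : ℝ) (q : Pt) (G : GT), Step P L₀ σ X u t up x₁ q G →
    ∀ e ∈ attG u true G, ∀ z, e.on z → z.1 ≤ nsig ((u, t) ::ₘ L₀) σ u x₁ G.pend z.2

/-- `VLM` (from `GTF`): visibility before and after.  `L = (u, t) ::ₘ L₀`, `L' = L₀ + G.pend`.
Points of `L₀` are different from `u` (`nd`) and from the pending points (which are available, while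
`σ i.1.2 = i.1.1` for live ones), and heights of different points of `P` are different.
(1) `i ∈ L₀` is not visible from `u` (its own height is in the interval).
(2) `i ∈ L₀`, `y` visible from `i.1` in `L'`, not visible from `u`.  Only `u.2 ∉ uIcc i.1.2 y` has to be
shown.  Otherwise `uIcc u.2 y ⊆ uIcc i.1.2 y`, so no height of `L₀` except possibly that of `i` is in
`uIcc u.2 y`, and `i.1.2 ∈ uIcc u.2 y` together with `u.2 ∈ uIcc i.1.2 y` gives `i.1.2 = u.2`,
impossible.  So `y` would be visible from `u`.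
(3) `i` pending, `y` visible from `i.1` in `L'`: if `j ∈ L₀` has its height in
`uIcc u.2 y ⊆ uIcc u.2 i.1.2 ∪ uIcc i.1.2 y`, it is not in the first interval (`i.1.2` is visible from
`u`), so it is in the second one, contradiction.
(4), (5): if no height of `L'` is in `uIcc y y'`: use `uIcc u.2 y' ⊆ uIcc u.2 y ∪ uIcc y y'`; if
`u.2 ∈ uIcc y y'` then `uIcc u.2 y ⊆ uIcc y y'` and `y` is visible. -/
def VLM_stmt : Prop :=
  ∀ (P : Finset Pt) (L₀ : Multiset (Pt × BT)) (σ : ℝ → ℝ) (X : ℝ) (u : Pt) (t : BT) (up : Bool)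
    (x₁ : ℝ) (q : Pt) (G : GT), Step P L₀ σ X u t up x₁ q G →
    (∀ i ∈ L₀, i.1 ≠ u ∧ (∀ j ∈ G.pend, i.1 ≠ j.1) ∧ ¬ Vis ((u, t) ::ₘ L₀) u i.1.2) ∧
    (∀ i ∈ L₀, ∀ y, Vis (L₀ + G.pend) i.1 y → ¬ Vis ((u, t) ::ₘ L₀) u y →
      Vis ((u, t) ::ₘ L₀) i.1 y) ∧
    (∀ i ∈ G.pend, ∀ y, Vis (L₀ + G.pend) i.1 y → Vis ((u, t) ::ₘ L₀) u y) ∧
    (∀ y y', (∀ i ∈ L₀ + G.pend, i.1.2 ∉ Set.uIcc y y') → Vis ((u, t) ::ₘ L₀) u y →
      Vis ((u, t) ::ₘ L₀) u y') ∧
    (∀ y y', (∀ i ∈ L₀ + G.pend, i.1.2 ∉ Set.uIcc y y') → ¬ Vis ((u, t) ::ₘ L₀) u y →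
      u.2 ∉ Set.uIcc y y')

/-- `NVC` (from `NSG`, `VLM`): the fields `vis` and `const` of the new configuration.
`vis`, `i ∈ L₀ + G.pend`, `y` visible from `i.1` in the new list.  Case `Vis L u y`: if `y` is the height
of a pending `j`, then `j.1 = i.1` (otherwise `j.1.2 = y ∈ uIcc i.1.2 y` is a contradiction) and
`nsig y = i.1.1`; if not, `nsig y = x₁` and `i.1.1 ≤ x₁` (`i ∈ L₀`: `i.1.1 = σ i.1.2 ≤ X < x₁`; `i`
pending: available with `i.1.1 ≤ x₁`).  Case `¬ Vis L u y`: `nsig y = σ y`, `i ∈ L₀` by `VLM` (3), and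
`i.1.1 ≤ σ y` by `VLM` (2) and the old `vis`.
`const`: case `Vis L u y`: `Vis L u y'` by `VLM` (4), `y`, `y'` are no pending heights, both values are
`x₁`.  Case `¬ Vis L u y`: `¬ Vis L u y'` (`VLM` (4) with `y`, `y'` exchanged), both values are the old
ones, the old `const` applies by `VLM` (5). -/
def NVC_stmt : Prop :=
  ∀ (P : Finset Pt) (L₀ : Multiset (Pt × BT)) (σ : ℝ → ℝ) (X : ℝ) (u : Pt) (t : BT) (up : Bool)
    (x₁ : ℝ) (q : Pt) (G : GT), Step P L₀ σ X u t up x₁ q G →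
    (∀ i ∈ L₀ + G.pend, ∀ y, Vis (L₀ + G.pend) i.1 y →
      i.1.1 ≤ nsig ((u, t) ::ₘ L₀) σ u x₁ G.pend y) ∧
    (∀ y y', (∀ i ∈ L₀ + G.pend, i.1.2 ∉ Set.uIcc y y') →
      nsig ((u, t) ::ₘ L₀) σ u x₁ G.pend y = nsig ((u, t) ::ₘ L₀) σ u x₁ G.pend y')

/-- `NCN` (from `NSG`, `VLM`, `GTF`): the field `cnt` of the new configuration.  Let
`p ∈ avs P L' (nsig …) i.1 d x₁`, so `nsig p.2 < p.1 ≤ x₁`, `Vis L' i.1 p.2`, `p.2 ≠ i.1.2`.  If
`Vis L u p.2`: `p.2` is not the height of a pending `j` (if `j.1 ≠ i.1` then `j.1.2 ∉ uIcc i.1.2 p.2`),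
so `nsig p.2 = x₁`, contradiction.  So `¬ Vis L u p.2`; for pending `i` this is impossible (`VLM` (3)),
the set is empty, and `1 ≤ mm`.  For `i ∈ L₀`: `nsig p.2 = σ p.2`, `Vis L i.1 p.2` (`VLM` (2)), so
`p ∈ avs P L σ i.1 d x₁`, and `p ≠ q` because `Vis L u q.2`.  So the set is contained in
`(avs P L σ i.1 d x₁).erase q`; use `small`. -/
def NCN_stmt : Prop :=
  ∀ (P : Finset Pt) (L₀ : Multiset (Pt × BT)) (σ : ℝ → ℝ) (X : ℝ) (u : Pt) (t : BT) (up : Bool)
    (x₁ : ℝ) (q : Pt) (G : GT), Step P L₀ σ X u t up x₁ q G →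
    ∀ i ∈ L₀ + G.pend, ∀ d,
      (avs P (L₀ + G.pend) (nsig ((u, t) ::ₘ L₀) σ u x₁ G.pend) i.1 d x₁).card < i.2.mm

/-- `NPT` (from `NSG`, `LST`, `GTF`): the field `pot` of the new configuration.
`avl P σ ⊆ avl P (nsig …) ∪ (the set of LST)`: let `σ p.2 < p.1`; if `¬ Vis L u p.2` then
`nsig p.2 = σ p.2`; if `Vis L u p.2` and `x₁ < p.1` then `nsig p.2 ≤ x₁ < p.1`.  So
`wt t + ∑_{L₀} wt ≤ |avl P σ| ≤ |avl P (nsig …)| + 2 mm t - 1` and
`∑_{pend} wt + 2 mm t ≤ wt t + 1` (`GTF`, `G.shape = t`). -/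
def NPT_stmt : Prop :=
  ∀ (P : Finset Pt) (L₀ : Multiset (Pt × BT)) (σ : ℝ → ℝ) (X : ℝ) (u : Pt) (t : BT) (up : Bool)
    (x₁ : ℝ) (q : Pt) (G : GT), Step P L₀ σ X u t up x₁ q G →
    ((L₀ + G.pend).map (fun i => i.2.wt)).sum ≤
      (avl P (nsig ((u, t) ::ₘ L₀) σ u x₁ G.pend)).card

/-- `NCF` (from `NSG`, `VLM`, `NVC`, `NCN`, `NPT`, `GTF`): the new configuration.  `nd`: the points of
`L₀` and of `G.pend` are distinct (`VLM` (1)).  `live`: for `i ∈ L₀`, `¬ Vis L u i.1.2` (`VLM` (1)), so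
the value is the old one. -/
def NCF_stmt : Prop :=
  ∀ (P : Finset Pt) (L₀ : Multiset (Pt × BT)) (σ : ℝ → ℝ) (X : ℝ) (u : Pt) (t : BT) (up : Bool)
    (x₁ : ℝ) (q : Pt) (G : GT), Step P L₀ σ X u t up x₁ q G →
    Cfg P (L₀ + G.pend) (nsig ((u, t) ::ₘ L₀) σ u x₁ G.pend) x₁

/-! ## Inserting the subtrees -/

/-- `PLA`: shape, root, points and edges of `G.plug D`; induction on `G`. -/
def PLA_stmt : Prop :=
  ∀ (G : GT) (D : Pt → PT), (∀ i ∈ G.pend, (D i.1).shape = i.2) →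
    (G.plug D).shape = G.shape ∧ (G.plug D).root = G.root ∧
    (G.plug D).pts = G.pts + (G.pend.map (fun i => (D i.1).pts)).sum ∧
    (∀ e, e ∈ (G.plug D).edges ↔ e ∈ G.edges ∨ ∃ i ∈ G.pend, e ∈ att i.1 true (D i.1))

/-- `PLB` (from `OB` (symmetry of `NC`), `PLA`, `GTF`): planarity of `G.plug D` together with the edge
from `u` to its root.  First prove the version without `u` by induction on `G` (for
`(G.plug D).edges` and `G.edges`); the list of edges is, up to the order, `G.edges` and the lists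
`att i.1 true (D i.1)`, `i ∈ G.pend`; the points `i.1` are pairwise distinct because `G.pts` has no
duplicates (`GTF`). -/
def PLB_stmt : Prop :=
  ∀ (G : GT) (D : Pt → PT) (u : Pt) (h : Bool), G.pts.Nodup →
    (∀ i ∈ G.pend, (D i.1).shape = i.2) → (attG u h G).Pairwise NC →
    (∀ i ∈ G.pend, (att i.1 true (D i.1)).Pairwise NC) →
    (∀ i ∈ G.pend, ∀ e ∈ attG u h G, ∀ f ∈ att i.1 true (D i.1), NC e f) →
    (∀ i ∈ G.pend, ∀ j ∈ G.pend, i.1 ≠ j.1 →
      ∀ e ∈ att i.1 true (D i.1), ∀ f ∈ att j.1 true (D j.1), NC e f) →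
    (att u h (G.plug D)).Pairwise NC

/-- `XNC` (from `OB`, `EE`, `GTF`, `RGN`, `NDR`, `NSG`, `VLM`): the old edges and the new ones.  Let `z`
be on `e ∈ attG u true G` and on `f ∈ att i.1 true (D i.1)`, `i ∈ L₀ + G.pend`.  By `Good.reg`,
`z = i.1` or `nsig z.2 < z.1`; the second is impossible by `NDR`.  So `z = i.1`.  If `i ∈ L₀`:
`σ z.2 = z.1` (`live`), so by `RGN` `z = u`, against `i.1 ≠ u`.  If `i` is pending, `z = i.1 ∈ P`, and
the end points of `e` and of `f` are in `P` (`GTF`, `Good.pts`, `EE`), so `z` is an end point of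
both edges by `OB` (part 2). -/
def XNC_stmt : Prop :=
  ∀ (P : Finset Pt) (L₀ : Multiset (Pt × BT)) (σ : ℝ → ℝ) (X : ℝ) (u : Pt) (t : BT) (up : Bool)
    (x₁ : ℝ) (q : Pt) (G : GT) (D : Pt → PT), Step P L₀ σ X u t up x₁ q G →
    Good P (L₀ + G.pend) (nsig ((u, t) ::ₘ L₀) σ u x₁ G.pend) D →
    ∀ i ∈ L₀ + G.pend, ∀ e ∈ attG u true G, ∀ f ∈ att i.1 true (D i.1), NC e f

/-- `PLG` (from `XNC`, `PLA`, `PLB`, `RGN`, `NDR`, `NSG`, `VLM`, `GTF`, `OB`): a solution of the new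
configuration gives a solution `D₁` of the old one: `D₁ u = G.plug D`, `D₁ v = D v` for `v ≠ u`
(`v ≠ u` for the points of `L₀`, `VLM` (1)).  `pts`, `nodup`, `disj`: `PLA`; a point `p` of `G.pts` is an
end point of an edge in `attG u true G` (`GTF`), so `p.1 ≤ nsig p.2` (`NDR`, `OB`), while the points `p'`
of the `D i.1` satisfy `nsig p'.2 < p'.1`; `G.pts` is contained in `avs …`.  `nc` for `u`: `PLB`, `XNC`.
`ncd`: `XNC` and `Good.ncd`, with the symmetry of `NC`.  `reg` for `u`: edges in `attG u true G` by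
`RGN`; edges in `att i.1 true (D i.1)`, `i` pending: `z = i.1`, available, or `σ z.2 ≤ nsig z.2 < z.1`
(`NSG`). -/
def PLG_stmt : Prop :=
  ∀ (P : Finset Pt) (L₀ : Multiset (Pt × BT)) (σ : ℝ → ℝ) (X : ℝ) (u : Pt) (t : BT) (up : Bool)
    (x₁ : ℝ) (q : Pt) (G : GT) (D : Pt → PT), Step P L₀ σ X u t up x₁ q G →
    Good P (L₀ + G.pend) (nsig ((u, t) ::ₘ L₀) σ u x₁ G.pend) D →
    ∃ D₁ : Pt → PT, Good P ((u, t) ::ₘ L₀) σ D₁

/-- `MAN` (from `CHO`, `GUP`, `GDN`, `NCF`, `PLG`, `GTF`): every configuration has a solution.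
Induction on `N`.  `L = 0`: nothing to show.  Otherwise `CHO`; `L = (u, t) ::ₘ L₀`
(`Multiset.exists_cons_of_mem`); the points `p` of `avs P L σ u up x₁` satisfy `u.1 ≤ σ p.2 < p.1`
(`vis`) and are above (`up = true`) or below `u`; a gadget exists by `GUP`, `GDN`; `NCF`, the
induction hypothesis (sizes: `GTF` (6), `G.shape = t`), `PLG`. -/
def MAN_stmt : Prop :=
  ∀ (N : ℕ) (P : Finset Pt) (L : Multiset (Pt × BT)) (σ : ℝ → ℝ) (X : ℝ),
    (L.map (fun i => i.2.size)).sum ≤ N → Cfg P L σ X → ∃ D : Pt → PT, Good P L σ D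

/-- `INI` (from `MAN`, `GTF`): `p₀` = leftmost point of `P`, `L = {(p₀, t)}`, `σ = fun _ => p₀.1`,
`X = p₀.1`: this is a configuration (`avs … X` is empty, `1 ≤ mm`; all points except `p₀` are
available).  With the solution `D` take `d = .un p₀ true (D p₀)` and
`S = (p₀ ::ₘ (D p₀).pts).toFinset`. -/
def INI_stmt : Prop :=
  ∀ (t : BT) (P : Finset Pt), Gen (P : Set Pt) → 1 + t.wt ≤ P.card →
    ∃ S ⊆ P, ∃ d : PT, Draw (.un t) S d

/-! ## The linear bound -/

/-- `WTB`.  Let `q = pl - 1` and let `c j t` be the number of branching vertices `v` of `t` with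
`j ≤ q v`.  (1) `j ≤ q t → 2 ^ j ≤ lv t` (induction).  (2) for `j ≥ 1`: `c j t = 0` or
`(c j t + 1) * 2 ^ (j - 1) ≤ lv t`.  Induction: for `br s t` with `s.lv ≤ t.lv` and `j ≤ q`, we have
`j - 1 ≤ q s`, so `2 ^ (j - 1) ≤ lv s ≤ lv t`, so `(c j s + 1) 2 ^ (j-1) ≤ lv s` and the same for `t`
in any case; add.  (3) `wt t = size t + 2 ∑_v (q v) ^ 2` and `q ^ 2 = ∑_{j < q} (2 j + 1)`, so
`wt t = size t + 2 ∑_{j < K} (2 j + 1) c (j + 1) t` for large `K`.  (4) `c (j + 1) t ≤ (lv t - 1) / 2 ^ j`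
and `∑_{j < K} (2 j + 1) / 2 ^ j = 6 - (4 K + 6) / 2 ^ K ≤ 6`. -/
def WTB_stmt : Prop := ∀ t : BT, t.wt + 12 ≤ t.size + 12 * t.lv

/-! ## The theorem -/

/-- `NBD` (from `TR`): the number of branching vertices of the rooted tree.  Let `brs t` be the list
of the labels of the vertices with two children; its length is `t.shape.lv - 1`, it is a sublist of
`t.verts`, so it has no duplicates.  A vertex `v` of it is not `r` (`r` would have two different
neighbours), so it has a parent (`TR`, or from the structure of `t`), which is different from its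
two children (distances from `r`), so it has at least 3 neighbours, and at most 3 by hypothesis. -/
def NBD_stmt : Prop :=
  ∀ (n : ℕ) (T : SimpleGraph (Fin n)), T.IsTree → (∀ v, (T.neighborSet v).ncard ≤ 3) →
    ∀ (r : Fin n) (t : LT (Fin n)), (T.neighborSet r).ncard ≤ 1 → t.root = r → t.verts.Nodup →
      (∀ v, v ∈ t.verts) →
      (∀ u v, (u, v) ∈ t.edg ↔ (T.Adj u v ∧ T.dist r v = T.dist r u + 1)) →
      t.shape.lv ≤ 1 + {v | (T.neighborSet v).ncard = 3}.ncard

/-- `FNL` (from `INI`, `WTB`, `NBD`, `RE`, `EM`, `GTF`): the theorem.  `r` a vertex of degree at most 1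
(given by the first hypothesis, proved in `Pool.Agent.helper83.LS.CX`, `CX_leaf`), `t` the rooted
tree of `RE`.  `t.shape` is not `br` (the two children of `r` would be different neighbours,
`t.verts.Nodup`, `t.edg`).  `t.shape = leaf`: `n = 1`, any point, `d = .leaf p`.  `t.shape = un t'`:
`n = t'.size + 1` (size = number of vertices), `t'.lv = t.shape.lv ≤ 1 + b` (`NBD`), so
`1 + wt t' ≤ 1 + t'.size + 12 (t'.lv - 1) ≤ n + 12 b` (`WTB`); `INI`, then `EM` on `S` (`|S| = n`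
because `d.pts = S.val` and `Draw`), and `S ⊆ P`. -/
def FNL_stmt : Prop :=
  (∀ (n : ℕ) (T : SimpleGraph (Fin n)), T.IsTree → ∃ r : Fin n, (T.neighborSet r).ncard ≤ 1) →
  ∀ (n : ℕ) (T : SimpleGraph (Fin n)), T.IsTree → (∀ v, (T.neighborSet v).ncard ≤ 3) →
    ∀ P : Finset (ℝ × ℝ), n + 12 * {v | (T.neighborSet v).ncard = 3}.ncard ≤ P.card →
      (∀ p ∈ P, ∀ q ∈ P, p ≠ q → p.1 ≠ q.1 ∧ p.2 ≠ q.2) → Emb n T P

end LSH.Lin
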